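import Mathlib

namespace Pool.Agent.Results.MP_1d6438_gt.ZeroDistance

open Set Topology

open scoped ENNReal

/-- The Gromov-Hausdorff distance in `[0, ∞]`: the infimum of the Hausdorff distances of isometric
copies in all metric spaces. -/
noncomputable def dGH (X Y : Type) [MetricSpace X] [MetricSpace Y] : ℝ≥0∞ :=
  ⨅ (Z : Type) (_ : MetricSpace Z) (φ : X → Z) (ψ : Y → Z) (_ : Isometry φ) (_ : Isometry ψ),
    Metric.hausdorffEDist (range φ) (range ψ)

/-- The distance set. -/
def distSet (X : Type) [MetricSpace X] : Set ℝ := range fun p : X × X => dist p.1 p.2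

/-- The uniqueness property in the class of all metric spaces. -/
def HasUniqueness (X : Type) [MetricSpace X] : Prop :=
  ∀ (Y : Type) [MetricSpace Y] [Nonempty Y], dGH X Y = 0 → Nonempty (X ≃ᵢ Y)

/-! ### The spaces -/

/-- The additional distance between points of indices with maximum `k`, for pairs with `c`. -/
noncomputable def ext (c : Prop) (k : ℕ) : ℝ := by
  classical
  exact if c then 1 / ((k : ℝ) + 2) else 0

lemma ext_nonneg (c : Prop) (k : ℕ) : 0 ≤ ext c k := by
  unfold ext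
  split_ifs
  · positivity
  · exact le_rfl

lemma ext_le (c : Prop) (k : ℕ) : ext c k ≤ 1 / ((k : ℝ) + 2) := by
  unfold ext
  split_ifs
  · exact le_rfl
  · positivity

lemma ext_le_half (c : Prop) (k : ℕ) : ext c k ≤ 1 / 2 := by
  refine (ext_le c k).trans ?_
  apply one_div_le_one_div_of_le (by norm_num)
  have : (0 : ℝ) ≤ k := Nat.cast_nonneg k
  linarith

lemma ext_true {c : Prop} (hc : c) (k : ℕ) : ext c k = 1 / ((k : ℝ) + 2) := by
  unfold ext
  rw [if_pos hc]

lemma ext_false {c : Prop} (hc : ¬ c) (k : ℕ) : ext c k = 0 := by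
  unfold ext
  rw [if_neg hc]

/-- The points: a family of clusters labelled by `L`; `ex n k` says that the distance between the
centre of the cluster `n` and its `k`-th point is exceptional. -/
def Cl (L : Type) (_ex : L → ℕ → Prop) : Type := L × ℕ

variable {L : Type} {ex : L → ℕ → Prop}

/-- The condition for an exceptional distance. -/
def cond (p q : Cl L ex) : Prop := p.1 = q.1 ∧ min p.2 q.2 = 0 ∧ ex p.1 (max p.2 q.2)

/-- The distance. -/
noncomputable def dd (p q : Cl L ex) : ℝ := by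
  classical
  exact if p = q then 0 else (max p.2 q.2 : ℕ) + 1 + ext (cond p q) (max p.2 q.2)

lemma dd_self (p : Cl L ex) : dd p p = 0 := by
  unfold dd
  rw [if_pos rfl]

lemma dd_ne {p q : Cl L ex} (h : p ≠ q) :
    dd p q = (max p.2 q.2 : ℕ) + 1 + ext (cond p q) (max p.2 q.2) := by
  unfold dd
  rw [if_neg h]

lemma one_le_dd {p q : Cl L ex} (h : p ≠ q) : (max p.2 q.2 : ℕ) + 1 ≤ dd p q := by
  rw [dd_ne h]
  linarith [ext_nonneg (cond p q) (max p.2 q.2)]

lemma dd_le (p q : Cl L ex) : dd p q ≤ (max p.2 q.2 : ℕ) + 3 / 2 := by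
  by_cases h : p = q
  · subst h
    rw [dd_self]
    positivity
  · rw [dd_ne h]
    linarith [ext_le_half (cond p q) (max p.2 q.2)]

lemma dd_nonneg (p q : Cl L ex) : 0 ≤ dd p q := by
  by_cases h : p = q
  · subst h
    rw [dd_self]
  · have := one_le_dd h
    have h2 : (0 : ℝ) ≤ (max p.2 q.2 : ℕ) := Nat.cast_nonneg _
    linarith

lemma dd_comm (p q : Cl L ex) : dd p q = dd q p := by
  by_cases h : p = q
  · rw [h]
  · rw [dd_ne h, dd_ne (Ne.symm h), max_comm p.2 q.2]
    have : cond p q ↔ cond q p := by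
      unfold cond
      constructor
      · rintro ⟨h1, h2, h3⟩
        exact ⟨h1.symm, by rw [min_comm]; exact h2, by rw [max_comm, ← h1]; exact h3⟩
      · rintro ⟨h1, h2, h3⟩
        exact ⟨h1.symm, by rw [min_comm]; exact h2, by rw [max_comm, ← h1]; exact h3⟩
    rw [this]

lemma dd_triangle (p q r : Cl L ex) : dd p r ≤ dd p q + dd q r := by
  by_cases h1 : p = q
  · subst h1
    rw [dd_self, zero_add]
  by_cases h2 : q = r
  · subst h2
    rw [dd_self, add_zero]
  have e1 := one_le_dd h1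
  have e2 := one_le_dd h2
  have e3 := dd_le p r
  have e4 : ((max p.2 r.2 : ℕ) : ℝ) ≤ (max p.2 q.2 : ℕ) + (max q.2 r.2 : ℕ) := by
    have : max p.2 r.2 ≤ max p.2 q.2 + max q.2 r.2 := by omega
    exact_mod_cast this
  linarith

noncomputable instance : MetricSpace (Cl L ex) where
  dist := dd
  dist_self := dd_self
  dist_comm := dd_comm
  dist_triangle := dd_triangle
  eq_of_dist_eq_zero := by
    intro p q h
    by_contra hne
    have := one_le_dd hne
    have h2 : (0 : ℝ) ≤ (max p.2 q.2 : ℕ) := Nat.cast_nonneg _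
    change dd p q = 0 at h
    linarith

lemma dist_def (p q : Cl L ex) : dist p q = dd p q := rfl

/-- The exceptional indices for `X`: none in the cluster `none`. -/
def exX : Option ℕ → ℕ → Prop
  | none => fun _ => False
  | some n => fun k => n ≤ k

/-- The exceptional indices for `Y`. -/
def exY : ℕ → ℕ → Prop := fun n k => n ≤ k

/-- The first space. -/
abbrev X : Type := Cl (Option ℕ) exX

/-- The second space. -/
abbrev Y : Type := Cl ℕ exY

instance : Nonempty X := ⟨(none, 0)⟩

instance : Nonempty Y := ⟨((0 : ℕ), (0 : ℕ))⟩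

/-! ### The distance set -/

lemma distSet_finite (r : ℝ) : (distSet (Cl L ex) ∩ Iic r).Finite := by
  have : distSet (Cl L ex) ∩ Iic r ⊆ {0} ∪
      (((fun k : ℕ => (k : ℝ) + 1) '' Iic ⌊|r|⌋₊) ∪
        ((fun k : ℕ => (k : ℝ) + 1 + 1 / ((k : ℝ) + 2)) '' Iic ⌊|r|⌋₊)) := by
    rintro _ ⟨⟨⟨p, q⟩, rfl⟩, hr⟩
    change dd p q ≤ r at hr
    change dd p q ∈ _
    by_cases h : p = q
    · left
      subst h
      rw [dd_self]
      rfl
    · right
      have hk : max p.2 q.2 ∈ Iic ⌊|r|⌋₊ := by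
        rw [mem_Iic, Nat.le_floor_iff (abs_nonneg r)]
        have h1 := one_le_dd h
        have h2 := le_abs_self r
        linarith
      rw [dd_ne h]
      by_cases hc : cond p q
      · right
        exact ⟨_, hk, by rw [ext_true hc]⟩
      · left
        exact ⟨_, hk, by rw [ext_false hc, add_zero]⟩
  refine Finite.subset ?_ this
  exact (finite_singleton _).union (((finite_Iic _).image _).union ((finite_Iic _).image _))

lemma distSet_closed_discrete :
    IsClosed (distSet (Cl L ex)) ∧ IsDiscrete (distSet (Cl L ex)) := by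
  rw [isClosed_and_discrete_iff]
  intro x
  rw [Filter.disjoint_principal_right]
  have hF := distSet_finite (L := L) (ex := ex) (x + 1)
  have h1 : ((distSet (Cl L ex) ∩ Iic (x + 1)) \ {x})ᶜ ∈ 𝓝 x :=
    (hF.subset sdiff_subset).isClosed.isOpen_compl.mem_nhds (fun h => h.2 rfl)
  have h2 : Iio (x + 1) ∈ 𝓝 x := Iio_mem_nhds (by linarith)
  rw [mem_nhdsWithin_iff_exists_mem_nhds_inter]
  refine ⟨_, Filter.inter_mem h1 h2, ?_⟩
  rintro y ⟨⟨hy1, hy2⟩, hy3⟩ hy4
  exact hy1 ⟨⟨hy4, mem_Iic.2 (le_of_lt (mem_Iio.1 hy2))⟩, hy3⟩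

/-! ### The two spaces have distance zero -/

/-- the map on labels -/
def f (N : ℕ) : Option ℕ → ℕ
  | none => N
  | some n => if n < N then n else n + 1

lemma f_inj (N : ℕ) : Function.Injective (f N) := by
  rintro (_ | n) (_ | m) h
  · rfl
  · simp only [f] at h
    split_ifs at h <;> omega
  · simp only [f] at h
    split_ifs at h <;> omega
  · simp only [f] at h
    congr 1
    split_ifs at h <;> omega

lemma f_surj (N : ℕ) : Function.Surjective (f N) := by
  intro m
  rcases lt_trichotomy m N with h | h | h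
  · exact ⟨some m, by simp [f, h]⟩
  · exact ⟨none, h.symm⟩
  · refine ⟨some (m - 1), ?_⟩
    have : ¬ (m - 1 < N) := by omega
    simp only [f, this, if_false]
    omega

lemma f_ex (N : ℕ) (n : Option ℕ) (k : ℕ) (hk : k < N) : exX n k ↔ exY (f N n) k := by
  rcases n with _ | n
  · simp only [exX, exY, f, false_iff]
    omega
  · simp only [exX, exY, f]
    split_ifs <;> omega

/-- the map of points -/
def F (N : ℕ) : X → Y := fun p => (f N p.1, p.2)

lemma F_inj (N : ℕ) : Function.Injective (F N) := by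
  rintro ⟨n, i⟩ ⟨m, j⟩ h
  have h1 : f N n = f N m := congrArg Prod.fst h
  have h2 : i = j := congrArg Prod.snd h
  rw [f_inj N h1, h2]

lemma F_surj (N : ℕ) : Function.Surjective (F N) := by
  rintro ⟨m, j⟩
  obtain ⟨n, hn⟩ := f_surj N m
  exact ⟨(n, j), by unfold F; rw [hn]⟩

lemma F_dis (N : ℕ) (p q : X) : |dist p q - dist (F N p) (F N q)| ≤ 1 / ((N : ℝ) + 2) := by
  rw [dist_def, dist_def]
  have hpos : (0 : ℝ) ≤ 1 / ((N : ℝ) + 2) := by positivity
  by_cases h : p = q
  · subst h
    rw [dd_self, dd_self, sub_zero, abs_zero]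
    exact hpos
  have h' : F N p ≠ F N q := fun e => h (F_inj N e)
  rw [dd_ne h, dd_ne h']
  change |((max p.2 q.2 : ℕ) + 1 + ext (cond p q) (max p.2 q.2)) -
    ((max p.2 q.2 : ℕ) + 1 + ext (cond (F N p) (F N q)) (max p.2 q.2))| ≤ _
  rw [add_sub_add_left_eq_sub]
  by_cases hK : max p.2 q.2 < N
  · have hc : cond p q ↔ cond (F N p) (F N q) := by
      unfold cond
      have h1 : p.1 = q.1 ↔ (F N p).1 = (F N q).1 := (f_inj N).eq_iff.symm
      have h2 : exX p.1 (max p.2 q.2) ↔ exY (F N p).1 (max p.2 q.2) := f_ex N _ _ hK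
      rw [h1, h2]
      rfl
    rw [← hc, sub_self, abs_zero]
    exact hpos
  · have hle : 1 / (((max p.2 q.2 : ℕ) : ℝ) + 2) ≤ 1 / ((N : ℝ) + 2) := by
      apply one_div_le_one_div_of_le (by positivity)
      have : (N : ℝ) ≤ (max p.2 q.2 : ℕ) := by exact_mod_cast not_lt.1 hK
      linarith
    have a1 := ext_nonneg (cond p q) (max p.2 q.2)
    have a2 := ext_le (cond p q) (max p.2 q.2)
    have a3 := ext_nonneg (cond (F N p) (F N q)) (max p.2 q.2)
    have a4 := ext_le (cond (F N p) (F N q)) (max p.2 q.2)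
    rw [abs_le]
    constructor <;> linarith

lemma dGH_le (N : ℕ) : dGH X Y ≤ ENNReal.ofReal (1 / ((N : ℝ) + 2)) := by
  have ε0 : 0 < 1 / ((N : ℝ) + 2) := by positivity
  have H : ∀ p q : X, |dist (id p) (id q) - dist (F N p) (F N q)| ≤ 2 * (1 / ((N : ℝ) + 2)) := by
    intro p q
    have := F_dis N p q
    simp only [id]
    linarith
  let _ : MetricSpace (X ⊕ Y) := Metric.glueMetricApprox (id : X → X) (F N) _ ε0 H
  have hl : Isometry (Sum.inl : X → X ⊕ Y) := Isometry.of_dist_eq fun _ _ => rfl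
  have hr : Isometry (Sum.inr : Y → X ⊕ Y) := Isometry.of_dist_eq fun _ _ => rfl
  have hglue : ∀ p : X, dist (Sum.inl p : X ⊕ Y) (Sum.inr (F N p)) = 1 / ((N : ℝ) + 2) :=
    fun p => Metric.glueDist_glued_points (id : X → X) (F N) _ p
  refine (iInf_le_of_le (X ⊕ Y) <| iInf_le_of_le inferInstance <| iInf_le_of_le Sum.inl <|
    iInf_le_of_le Sum.inr <| iInf_le_of_le hl <| iInf_le_of_le hr ?_)
  apply Metric.hausdorffEDist_le_of_mem_edist
  · rintro _ ⟨p, rfl⟩
    refine ⟨_, ⟨F N p, rfl⟩, ?_⟩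
    rw [edist_dist, hglue]
  · rintro _ ⟨y, rfl⟩
    obtain ⟨p, rfl⟩ := F_surj N y
    refine ⟨_, ⟨p, rfl⟩, ?_⟩
    rw [edist_comm, edist_dist, hglue]

lemma dGH_eq_zero : dGH X Y = 0 := by
  have h : Filter.Tendsto (fun N : ℕ => ENNReal.ofReal (1 / ((N : ℝ) + 2))) Filter.atTop (𝓝 0) := by
    rw [← ENNReal.ofReal_zero]
    apply ENNReal.tendsto_ofReal
    have h1 : Filter.Tendsto (fun N : ℕ => (N : ℝ) + 2) Filter.atTop Filter.atTop :=
      Filter.tendsto_atTop_add_const_right _ _ tendsto_natCast_atTop_atTop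
    have h2 := h1.inv_tendsto_atTop
    refine h2.congr fun N => ?_
    rw [Pi.inv_apply, one_div]
  exact le_antisymm (ge_of_tendsto' h dGH_le) zero_le

/-! ### They are not isometric -/

lemma not_isometric : ¬ Nonempty (X ≃ᵢ Y) := by
  rintro ⟨e⟩
  let p : X := (none, 0)
  let p' : X := (some 0, 0)
  have hpp' : p ≠ p' := by
    intro h
    have := congrArg Prod.fst h
    simp [p, p'] at this
  have h1 : dist p p' = 1 := by
    rw [dist_def, dd_ne hpp', ext_false]
    · simp [p, p']
    · rintro ⟨h, _⟩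
      simp [p, p'] at h
  have h2 : dist (e p) (e p') = 1 := by rw [e.dist_eq, h1]
  have h3 : (e p).2 = 0 := by
    have hne : e p ≠ e p' := fun h => hpp' (e.injective h)
    have h4 := one_le_dd hne
    rw [← dist_def, h2] at h4
    have h5 : (max (e p).2 (e p').2 : ℕ) ≤ 0 := by
      have : ((max (e p).2 (e p').2 : ℕ) : ℝ) ≤ 0 := by linarith
      exact_mod_cast this
    omega
  let y : Y := ((e p).1, (e p).1 + 1)
  obtain ⟨q, hq⟩ := e.surjective y
  have hne : e p ≠ y := by
    intro h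
    have : (e p).2 = (e p).1 + 1 := congrArg Prod.snd h
    omega
  have hcond : cond (e p) y := by
    refine ⟨rfl, ?_, ?_⟩
    · rw [h3]
      simp
    · change (e p).1 ≤ max (e p).2 ((e p).1 + 1)
      rw [h3]
      omega
  have hd : dist (e p) y = ((e p).1 + 1 : ℕ) + 1 + 1 / ((((e p).1 + 1 : ℕ) : ℝ) + 2) := by
    rw [dist_def, dd_ne hne, ext_true hcond]
    have : max (e p).2 y.2 = (e p).1 + 1 := by
      change max (e p).2 ((e p).1 + 1) = (e p).1 + 1
      rw [h3]
      simp
    rw [this]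
  have hpq : p ≠ q := by
    rintro rfl
    exact hne hq
  have hd2 : dist p q = (max p.2 q.2 : ℕ) + 1 := by
    rw [dist_def, dd_ne hpq, ext_false, add_zero]
    rintro ⟨_, _, h⟩
    exact h
  have hd3 : dist (e p) y = dist p q := by rw [← hq, e.dist_eq]
  rw [hd, hd2] at hd3
  -- a contradiction: the reciprocal of a number larger than one is an integer
  have h6 : (1 : ℝ) / ((((e p).1 + 1 : ℕ) : ℝ) + 2) =
      (((max p.2 q.2 : ℕ) : ℤ) - ((e p).1 + 1 : ℕ) : ℤ) := by
    push_cast
    push_cast at hd3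
    linarith
  have h7 : (0 : ℝ) < (1 : ℝ) / ((((e p).1 + 1 : ℕ) : ℝ) + 2) := by positivity
  have h8 : (1 : ℝ) / ((((e p).1 + 1 : ℕ) : ℝ) + 2) < 1 := by
    rw [div_lt_one (by positivity)]
    have : (0 : ℝ) ≤ ((e p).1 + 1 : ℕ) := Nat.cast_nonneg _
    linarith
  rw [h6] at h7 h8
  have h9 : (0 : ℤ) < ((max p.2 q.2 : ℕ) : ℤ) - ((e p).1 + 1 : ℕ) := by exact_mod_cast h7
  have h10 : ((max p.2 q.2 : ℕ) : ℤ) - ((e p).1 + 1 : ℕ) < 1 := by exact_mod_cast h8
  omega

/-- There is a metric space with closed discrete distance set which does not have the uniqueness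
property. -/
theorem result :
    ¬ ∀ (X : Type) [MetricSpace X] [Nonempty X],
      (IsClosed (distSet X) ∧ IsDiscrete (distSet X)) → HasUniqueness X := by
  intro h
  exact not_isometric (h X distSet_closed_discrete Y dGH_eq_zero)

end Pool.Agent.Results.MP_1d6438_gt.ZeroDistance
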